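import Pool.Agent.Work.MP_223b32_tc.Interface

/-!
# Block RU: a root of unity which is `1` modulo `4` is `1`
-/

namespace Pool.Agent.Work.TC

open Finset Polynomial

theorem stmt_RU : Stmt_RU := by
  intro ω N hN hω x hx
  have hint : IsIntegral ℤ (x : ℂ) := x.2
  set p : ℤ[X] := minpoly ℤ (x : ℂ) with hp
  have hmon : p.Monic := minpoly.monic hint
  -- the roots of `p`
  have hdvd : p ∣ (1 + 4 * X) ^ N - 1 := by
    refine minpoly.isIntegrallyClosed_dvd hint ?_
    rw [map_sub, map_pow, map_add, map_mul, aeval_X, map_one, map_ofNat, ← hx, hω, sub_self]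
  have hroots : ∀ y ∈ (p.map (Int.castRingHom ℂ)).roots, ‖y‖ ≤ 1 / 2 := by
    intro y hy
    have h1 : (p.map (Int.castRingHom ℂ)).eval y = 0 := (mem_roots'.1 hy).2
    have h2 : (((1 + 4 * X : ℤ[X]) ^ N - 1).map (Int.castRingHom ℂ)).eval y = 0 := by
      obtain ⟨r, hr⟩ := hdvd
      rw [hr, Polynomial.map_mul, eval_mul, h1, zero_mul]
    have h3 : (1 + 4 * y) ^ N = 1 := by
      have : (1 + 4 * y) ^ N - 1 = 0 := by
        simpa [Polynomial.map_sub, Polynomial.map_pow, Polynomial.map_add, Polynomial.map_mul]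
          using h2
      exact sub_eq_zero.1 this
    have h4 : ‖(1 + 4 * y : ℂ)‖ = 1 := Complex.norm_eq_one_of_pow_eq_one h3 hN.ne'
    have h5 : ‖(4 * y : ℂ)‖ ≤ 2 := by
      have h6 : (4 * y : ℂ) = (1 + 4 * y) - 1 := by ring
      rw [h6]
      refine (norm_sub_le _ _).trans ?_
      rw [h4, norm_one]
      norm_num
    rw [norm_mul] at h5
    have h7 : ‖(4 : ℂ)‖ = 4 := by norm_num
    rw [h7] at h5
    linarith
  have hsplit : (p.map (Int.castRingHom ℂ)).Splits := IsAlgClosed.splits _
  have hc := hsplit.coeff_zero_eq_prod_roots_of_monic (hmon.map _)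
  have hdeg : 0 < p.natDegree := minpoly.natDegree_pos hint
  have hnorm : ‖(p.map (Int.castRingHom ℂ)).roots.prod‖ < 1 := by
    have hcard : (p.map (Int.castRingHom ℂ)).roots.card = p.natDegree := by
      rw [← hsplit.natDegree_eq_card_roots, hmon.natDegree_map]
    have hgen : ∀ s : Multiset ℂ, (∀ y ∈ s, ‖y‖ ≤ 1 / 2) → ‖s.prod‖ ≤ (1 / 2) ^ s.card := by
      intro s
      induction s using Multiset.induction_on with
      | empty => intro _; simp
      | cons a s ih =>
        intro h
        rw [Multiset.prod_cons, norm_mul, Multiset.card_cons, pow_succ, mul_comm]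
        exact mul_le_mul (ih fun y hy => h y (Multiset.mem_cons_of_mem hy))
          (h a (Multiset.mem_cons_self a s)) (norm_nonneg _) (by positivity)
    refine (hgen _ hroots).trans_lt ?_
    rw [hcard]
    exact pow_lt_one₀ (by norm_num) (by norm_num) hdeg.ne'
  have h0 : p.coeff 0 = 0 := by
    have h1 : ‖((p.coeff 0 : ℤ) : ℂ)‖ < 1 := by
      have h2 : ((p.coeff 0 : ℤ) : ℂ) = (p.map (Int.castRingHom ℂ)).coeff 0 := by
        rw [coeff_map]; rfl
      rw [h2, hc, norm_mul, norm_pow, norm_neg, norm_one, one_pow, one_mul]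
      exact hnorm
    rw [Complex.norm_intCast] at h1
    have h2 : |p.coeff 0| < 1 := by exact_mod_cast h1
    exact Int.abs_lt_one_iff.1 h2
  have hx0 : (x : ℂ) = 0 := by
    have h1 := minpoly.isIntegrallyClosed_eq_field_fractions' ℚ hint
    have h2 : (minpoly ℚ (x : ℂ)).coeff 0 = 0 := by
      rw [h1, coeff_map, ← hp, h0, map_zero]
    exact (minpoly.coeff_zero_eq_zero (hint.tower_top)).1 h2
  rw [hx, hx0, mul_zero, add_zero]

end Pool.Agent.Work.TC
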